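import Mathlib
import Pool.Agent.R446.SidonUB

set_option autoImplicit false

/-!
# The coefficient of the fourth root term in the upper bound for finite Sidon sets is at most
2 sqrt 2 / 3 = 0.9428...
-/

namespace Pool.Agent.Results.MP_b3cbc5_nt.FourthRootCoefficient

/-- **Theorem.** For all large `n`, every Sidon set inside `{1, ..., n}` has at most
`sqrt n + (2 sqrt 2 / 3) n^(1/4) + 1/2` elements. More generally, for every `g ≥ 1` and all large
`n`, every set `A` inside `{1, ..., n}` in which every positive integer `d` is a difference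
`b - a` of at most `g` pairs of elements of `A` has at most
`sqrt (g n) + (2 sqrt 2 / 3) (g n)^(1/4) + 1/2` elements. -/
theorem result :
    (∃ n₀ : ℕ, ∀ n : ℕ, n₀ ≤ n → ∀ A : Finset ℕ, A ⊆ Finset.Icc 1 n →
      (∀ a ∈ A, ∀ b ∈ A, ∀ c ∈ A, ∀ d ∈ A,
        a + b = c + d → (a = c ∧ b = d) ∨ (a = d ∧ b = c)) →
      (A.card : ℝ) ≤ Real.sqrt (n : ℝ)
        + 2 * Real.sqrt 2 / 3 * (n : ℝ) ^ ((1 : ℝ) / 4) + 1 / 2) ∧
    (∀ g : ℕ, 0 < g → ∃ n₀ : ℕ, ∀ n : ℕ, n₀ ≤ n → ∀ A : Finset ℕ, A ⊆ Finset.Icc 1 n →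
      (∀ d : ℕ, 0 < d → ((A ×ˢ A).filter (fun p => p.1 + d = p.2)).card ≤ g) →
      (A.card : ℝ) ≤ Real.sqrt ((g : ℝ) * (n : ℝ))
        + 2 * Real.sqrt 2 / 3 * ((g : ℝ) * (n : ℝ)) ^ ((1 : ℝ) / 4) + 1 / 2) := by
  refine ⟨?_, fun g hg => Pool.Agent.R446.thin_bound g hg⟩
  obtain ⟨n₀, h⟩ := Pool.Agent.R446.thin_bound 1 one_pos
  refine ⟨n₀, fun n hn A hA hS => ?_⟩
  have key := h n hn A hA ?_
  · simpa using key
  · intro d hd
    rw [Finset.card_le_one]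
    intro p hp q hq
    rw [Finset.mem_filter, Finset.mem_product] at hp hq
    obtain ⟨⟨hp1, hp2⟩, hpd⟩ := hp
    obtain ⟨⟨hq1, hq2⟩, hqd⟩ := hq
    rcases hS p.1 hp1 q.2 hq2 q.1 hq1 p.2 hp2 (by omega) with h1 | h1
    · ext
      · exact h1.1
      · exact h1.2.symm
    · omega

end Pool.Agent.Results.MP_b3cbc5_nt.FourthRootCoefficient
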